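import Pool.Agent.Run7.h104.AC.Defs
import Pool.Agent.Helper202.Univ

/-!
# GB: the weighted mean of `log |F z - b|` over an annulus
-/

set_option autoImplicit false

namespace Pool.Agent.Run7.h781.AC

open MeasureTheory Complex Set Filter Topology Metric
open Pool.Agent.Run7.h104.AC

/-- local integrability of `log |z - a|` -/
theorem integrable_log (a : ℂ) :
    IntegrableOn (fun z : ℂ => Real.log ‖z - a‖) (ball (0 : ℂ) 1) := by
  have h1 : IntegrableOn (fun z : ℂ => Real.log ‖z‖) (ball 0 (1 + ‖a‖)) := by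
    rw [integrableOn_fun_norm_addHaar volume (f := Real.log)]
    have h : Continuous (fun y : ℝ => y ^ (Module.finrank ℝ ℂ - 1) • Real.log y) := by
      rw [Complex.finrank_real_complex]
      simpa using Real.continuous_mul_log
    exact (h.integrableOn_Icc (a := 0) (b := 1 + ‖a‖)).mono_set Ioo_subset_Icc_self
  have h2 : IntegrableOn ((fun z : ℂ => Real.log ‖z‖) ∘ fun z => z - a)
      ((fun z => z - a) ⁻¹' ball 0 (1 + ‖a‖)) :=
    ((measurePreserving_sub_right volume a).integrableOn_comp_preimage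
      (measurableEmbedding_subRight a)).2 h1
  refine h2.mono_set ?_
  intro z hz
  rw [mem_ball_zero_iff] at hz
  rw [mem_preimage, mem_ball_zero_iff]
  calc ‖z - a‖ ≤ ‖z‖ + ‖a‖ := norm_sub_le _ _
    _ < 1 + ‖a‖ := by linarith

theorem measurableSet_Ann (δ : ℝ) : MeasurableSet (Ann δ) := by
  have h : Ann δ = ball (0 : ℂ) 1 ∩ (closedBall (0 : ℂ) δ)ᶜ := by
    ext z
    simp only [Ann, mem_ofPred_eq, mem_inter_iff, mem_ball_zero_iff, mem_compl_iff,
      mem_closedBall_zero_iff, not_le]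
    tauto
  rw [h]
  exact measurableSet_ball.inter measurableSet_closedBall.compl

theorem Ann_sub (δ : ℝ) : Ann δ ⊆ ball (0 : ℂ) 1 := fun z hz => by
  rw [mem_ball_zero_iff]; exact hz.2

/-- the weight times an integrable function is integrable over the annulus -/
theorem integrable_Rw {δ : ℝ} (hδ : 0 < δ) {L : ℂ → ℝ} (hL : IntegrableOn L (ball (0 : ℂ) 1)) :
    IntegrableOn (fun z => Rw z * L z) (Ann δ) := by
  refine Integrable.bdd_mul (c := 4 / δ ^ 3) (hL.mono_set (Ann_sub δ)) ?_ ?_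
  · apply Measurable.aestronglyMeasurable
    unfold Rw
    fun_prop
  · refine (ae_restrict_iff' (measurableSet_Ann δ)).2 (Eventually.of_forall fun z hz => ?_)
    have h1 : ‖1 + z‖ ≤ 2 := by
      calc ‖1 + z‖ ≤ ‖(1 : ℂ)‖ + ‖z‖ := norm_add_le _ _
        _ ≤ 2 := by rw [norm_one]; linarith [hz.2]
    have h2 : δ ^ 3 ≤ ‖z‖ ^ 3 := pow_le_pow_left₀ hδ.le hz.1.le 3
    have h3 : ‖1 + z‖ ^ 2 ≤ 4 := by nlinarith [norm_nonneg (1 + z)]
    rw [Rw, Real.norm_eq_abs, abs_of_nonneg (by positivity)]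
    exact div_le_div₀ (by norm_num) h3 (by positivity) h2

section

variable {R0 β : ℝ} {F : ℂ → ℂ}

theorem ball_sub (hU : Uni R0 β F) : ball (0 : ℂ) 1 ⊆ ball 0 R0 := ball_subset_ball hU.hR.le

theorem closedBall_sub (hU : Uni R0 β F) : closedBall (0 : ℂ) 1 ⊆ ball 0 R0 :=
  closedBall_subset_ball hU.hR

/-- the quotient `(F z - F a) / (z - a)` -/
theorem quot (hU : Uni R0 β F) {a : ℂ} (ha : a ∈ ball (0 : ℂ) R0) :
    DifferentiableOn ℂ (dslope F a) (ball 0 R0) ∧ (∀ z ∈ ball (0 : ℂ) R0, dslope F a z ≠ 0) ∧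
    ∀ z, F z - F a = (z - a) * dslope F a z := by
  refine ⟨(Complex.differentiableOn_dslope (isOpen_ball.mem_nhds ha)).2 hU.hF, fun z hz h0 => ?_,
    fun z => ?_⟩
  · by_cases hza : z = a
    · rw [hza, dslope_same] at h0
      exact Pool.Agent.Helper202.Univ.deriv_ne_zero isOpen_ball hU.hF hU.inj ha h0
    · have h1 := sub_smul_dslope F a z
      rw [h0, smul_zero] at h1
      exact hza (hU.inj hz ha (sub_eq_zero.1 h1.symm))
  · have h1 := sub_smul_dslope F a z
    rw [smul_eq_mul] at h1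
    exact h1.symm

theorem integrable_logF (hU : Uni R0 β F) (b : ℂ) :
    IntegrableOn (fun z => Real.log ‖F z - b‖) (ball (0 : ℂ) 1) := by
  by_cases h : ∃ a ∈ ball (0 : ℂ) R0, F a = b
  · obtain ⟨a, ha, hab⟩ := h
    obtain ⟨hd, hne, heq⟩ := quot hU ha
    have h1 : IntegrableOn (fun z => Real.log ‖dslope F a z‖) (ball (0 : ℂ) 1) := by
      have hc : ContinuousOn (fun z => Real.log ‖dslope F a z‖) (closedBall (0 : ℂ) 1) :=
        (hd.continuousOn.mono (closedBall_sub hU)).norm.log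
          fun z hz => norm_ne_zero_iff.2 (hne z (closedBall_sub hU hz))
      exact (hc.integrableOn_compact (isCompact_closedBall _ _)).mono_set ball_subset_closedBall
    refine ((integrable_log a).add h1).congr ?_
    have h2 : ∀ᵐ z ∂(volume.restrict (ball (0 : ℂ) 1)), z ≠ a := by
      apply ae_restrict_of_ae
      exact compl_mem_ae_iff.2 (measure_singleton a)
    filter_upwards [h2, ae_restrict_mem measurableSet_ball] with z hz hz1
    rw [Pi.add_apply, ← hab, heq z, norm_mul, Real.log_mul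
      (norm_ne_zero_iff.2 (sub_ne_zero.2 hz)) (norm_ne_zero_iff.2 (hne z (ball_sub hU hz1)))]
  · push Not at h
    have hc : ContinuousOn (fun z => Real.log ‖F z - b‖) (closedBall (0 : ℂ) 1) :=
      ((hU.hF.continuousOn.mono (closedBall_sub hU)).sub continuousOn_const).norm.log
        fun z hz => norm_ne_zero_iff.2 (sub_ne_zero.2 (h z (closedBall_sub hU hz)))
    exact (hc.integrableOn_compact (isCompact_closedBall _ _)).mono_set ball_subset_closedBall

/-- the average, no zero -/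
theorem avgA (hLOGF : S_LOGF) (hCAH : S_CAH) (hU : Uni R0 β F) {b : ℂ}
    (hne : ∀ z ∈ ball (0 : ℂ) 1, F z ≠ b) {r : ℝ} (hr : 0 < r) (hr1 : r < 1) :
    Real.circleAverage (fun z => ‖1 + z‖ ^ 2 * Real.log ‖F z - b‖) 0 r =
      (1 + r ^ 2) * Real.log ‖b‖ - r ^ 2 * (β * (1 / b).re) := by
  have hd1 : DifferentiableOn ℂ F (ball 0 1) := hU.hF.mono (ball_sub hU)
  obtain ⟨H, hHd, hexp, hH0⟩ := hLOGF 1 (fun z => F z - b) one_pos (hd1.sub_const b)
    (fun z hz => sub_ne_zero.2 (hne z hz))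
  have h1 : Real.circleAverage (fun z => ‖1 + z‖ ^ 2 * Real.log ‖F z - b‖) 0 r =
      Real.circleAverage (fun z => ‖1 + z‖ ^ 2 * (H z).re) 0 r := by
    apply Real.circleAverage_congr_sphere
    intro z hz
    have hz1 : z ∈ ball (0 : ℂ) 1 := by
      rw [mem_sphere_zero_iff_norm, abs_of_pos hr] at hz
      rw [mem_ball_zero_iff, hz]; exact hr1
    have h2 := hexp z hz1
    simp only [← h2, Complex.norm_exp, Real.log_exp]
  have h0 : (H 0).re = Real.log ‖b‖ := by
    have h2 := hexp 0 (mem_ball_self one_pos)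
    simp only [hU.F0, zero_sub] at h2
    rw [← Real.log_exp (H 0).re, ← Complex.norm_exp, h2, norm_neg]
  have h0' : (deriv H 0).re = -(β * (1 / b).re) := by
    rw [hH0, deriv_sub_const, hU.F1, hU.F0, zero_sub, div_neg, neg_re, ← mul_one_div,
      Complex.re_ofReal_mul]
  rw [h1, hCAH 1 r H hr hr1 hHd, h0, h0']
  ring

/-- the average, with a zero -/
theorem avgB (hLOGF : S_LOGF) (hCAH : S_CAH) (hCAL : S_CAL) (hU : Uni R0 β F) {b : ℂ} (hb : b ≠ 0)
    {a : ℂ} (ha : a ∈ ball (0 : ℂ) 1) (hab : F a = b) {r : ℝ} (hr : 0 < r) (hr1 : r < 1) :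
    (r < ‖a‖ → Real.circleAverage (fun z => ‖1 + z‖ ^ 2 * Real.log ‖F z - b‖) 0 r =
      (1 + r ^ 2) * Real.log ‖b‖ - r ^ 2 * (β * (1 / b).re)) ∧
    (‖a‖ < r → Real.circleAverage (fun z => ‖1 + z‖ ^ 2 * Real.log ‖F z - b‖) 0 r =
      (1 + r ^ 2) * Real.log ‖b‖ - r ^ 2 * (β * (1 / b).re) +
        ((1 + r ^ 2) * Real.log (r / ‖a‖) - a.re + r ^ 2 * a.re / ‖a‖ ^ 2)) := by
  have ha0 : a ≠ 0 := by
    rintro rfl
    exact hb (by rw [← hab, hU.F0])
  have han : 0 < ‖a‖ := norm_pos_iff.2 ha0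
  have haR := ball_sub hU ha
  obtain ⟨hd, hne, heq⟩ := quot hU haR
  obtain ⟨H, hHd, hexp, hH0⟩ := hLOGF 1 (dslope F a) one_pos (hd.mono (ball_sub hU))
    (fun z hz => hne z (ball_sub hU hz))
  have hg0 : dslope F a 0 = b / a := by
    have h1 := heq 0
    rw [hU.F0, hab, zero_sub, zero_sub, neg_mul, neg_inj] at h1
    rw [h1, mul_div_cancel_left₀ _ ha0]
  have hg1 : deriv (dslope F a) 0 = (-(β * a) + b) / a ^ 2 := by
    have hda : DifferentiableAt ℂ F 0 :=
      hU.hF.differentiableAt (isOpen_ball.mem_nhds (mem_ball_self (by linarith [hU.hR])))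
    have h1 : HasDerivAt F (β : ℂ) 0 := by rw [← hU.F1]; exact hda.hasDerivAt
    have h2 : HasDerivAt (fun z => (F z - b) / (z - a))
        (((β : ℂ) * (0 - a) - (F 0 - b) * 1) / (0 - a) ^ 2) 0 :=
      (h1.sub_const b).div ((hasDerivAt_id (0 : ℂ)).sub_const a) (by simpa using ha0)
    have h3 : dslope F a =ᶠ[𝓝 0] fun z => (F z - b) / (z - a) := by
      filter_upwards [isOpen_ne.mem_nhds (Ne.symm ha0)] with z hz
      rw [← hab, heq z, mul_div_cancel_left₀ _ (sub_ne_zero.2 hz)]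
    rw [h3.deriv_eq, h2.deriv, hU.F0]
    congr 1 <;> ring
  have h0 : (H 0).re = Real.log ‖b‖ - Real.log ‖a‖ := by
    have h2 := hexp 0 (mem_ball_self one_pos)
    rw [← Real.log_exp (H 0).re, ← Complex.norm_exp, h2, hg0, norm_div,
      Real.log_div (norm_ne_zero_iff.2 hb) (norm_ne_zero_iff.2 ha0)]
  have h0' : (deriv H 0).re = -(β * (1 / b).re) + (1 / a).re := by
    have h2 : deriv H 0 = -((β : ℂ) * (1 / b)) + 1 / a := by
      rw [hH0, hg0, hg1]
      field_simp
    rw [h2, add_re, neg_re, Complex.re_ofReal_mul]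
  have hkey : r ≠ ‖a‖ → Real.circleAverage (fun z => ‖1 + z‖ ^ 2 * Real.log ‖F z - b‖) 0 r =
      Real.circleAverage (fun z => ‖1 + z‖ ^ 2 * Real.log ‖z - a‖) 0 r +
      Real.circleAverage (fun z => ‖1 + z‖ ^ 2 * (H z).re) 0 r := by
    intro hra
    have hsph : ∀ z ∈ sphere (0 : ℂ) r, z ≠ a := by
      rintro z hz rfl
      rw [mem_sphere_zero_iff_norm] at hz
      exact hra hz.symm
    have hsb : sphere (0 : ℂ) r ⊆ ball 0 1 := fun z hz => by
      rw [mem_sphere_zero_iff_norm] at hz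
      rw [mem_ball_zero_iff, hz]; exact hr1
    rw [← Real.circleAverage_fun_add]
    · apply Real.circleAverage_congr_sphere
      intro z hz
      rw [abs_of_pos hr] at hz
      have hza := hsph z hz
      have hz1 := hsb hz
      have h2 : ‖F z - b‖ = ‖z - a‖ * Real.exp (H z).re := by
        rw [← hab, heq z, norm_mul, ← Complex.norm_exp, hexp z hz1]
      simp only
      rw [h2, Real.log_mul (norm_ne_zero_iff.2 (sub_ne_zero.2 hza)) (Real.exp_ne_zero _),
        Real.log_exp]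
      ring
    · refine ContinuousOn.circleIntegrable hr.le (ContinuousOn.mul (by fun_prop) ?_)
      refine ContinuousOn.log (by fun_prop) fun z hz => ?_
      exact norm_ne_zero_iff.2 (sub_ne_zero.2 (hsph z hz))
    · refine ContinuousOn.circleIntegrable hr.le (ContinuousOn.mul (by fun_prop) ?_)
      exact Complex.continuous_re.comp_continuousOn (hHd.continuousOn.mono hsb)
  have hre : (1 / a).re = a.re / ‖a‖ ^ 2 := by
    rw [one_div, Complex.inv_re, Complex.normSq_eq_norm_sq]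
  refine ⟨fun h => ?_, fun h => ?_⟩
  · rw [hkey h.ne, hCAH 1 r H hr hr1 hHd, h0, h0', (hCAL a r ha0 hr).1 h]
    ring
  · rw [hkey h.ne', hCAH 1 r H hr hr1 hHd, h0, h0', (hCAL a r ha0 hr).2 h, hre,
      Real.log_div hr.ne' han.ne']
    ring

end

/-- the base integral -/
theorem base_integral (δ l x : ℝ) (hδ : 0 < δ) (hδ1 : δ < 1) :
    ∫ r in δ..1, 2 * Real.pi * r * ((r ^ 3)⁻¹ * ((1 + r ^ 2) * l - r ^ 2 * x)) =
      2 * Real.pi * (l * (1 / δ - δ) - x * (1 - δ)) := by
  have hpos : ∀ r ∈ uIcc δ 1, 0 < r := fun r hr => by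
    rw [uIcc_of_le hδ1.le] at hr; exact hδ.trans_le hr.1
  have h1 : ∀ r ∈ uIcc δ 1, HasDerivAt (fun r : ℝ => 2 * Real.pi * ((r - r⁻¹) * l - x * r))
      (2 * Real.pi * r * ((r ^ 3)⁻¹ * ((1 + r ^ 2) * l - r ^ 2 * x))) r := by
    intro r hr
    have hr0 := (hpos r hr).ne'
    have h2 : HasDerivAt (fun r : ℝ => 2 * Real.pi * ((r - r⁻¹) * l - x * r))
        (2 * Real.pi * ((1 - -(r ^ 2)⁻¹) * l - x * 1)) r :=
      (((((hasDerivAt_id r).sub (hasDerivAt_inv hr0)).mul_const l).sub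
        ((hasDerivAt_id r).const_mul x))).const_mul (2 * Real.pi)
    have e : 2 * Real.pi * r * ((r ^ 3)⁻¹ * ((1 + r ^ 2) * l - r ^ 2 * x)) =
        2 * Real.pi * ((1 - -(r ^ 2)⁻¹) * l - x * 1) := by
      field_simp
      ring
    rw [e]
    exact h2
  rw [intervalIntegral.integral_eq_sub_of_hasDerivAt h1]
  · rw [one_div, inv_one]
    ring
  · apply ContinuousOn.intervalIntegrable
    intro r hr
    have hr0 := (hpos r hr).ne'
    apply ContinuousAt.continuousWithinAt
    have : ContinuousAt (fun r : ℝ => (r ^ 3)⁻¹) r :=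
      ContinuousAt.inv₀ (by fun_prop) (pow_ne_zero 3 hr0)
    fun_prop

theorem t_GB (hLOGF : S_LOGF) (hCAH : S_CAH) (hCAL : S_CAL) (hCALC : S_CALC) (hPOL : S_POL) :
    S_GB := by
  intro R0 β F hU b δ hb hδ hδ1 hbδ
  have hint : IntegrableOn (fun z => Rw z * Real.log ‖F z - b‖) (Ann δ) :=
    integrable_Rw hδ (integrable_logF hU b)
  refine ⟨hint, ?_⟩
  obtain ⟨hii, hpol⟩ := hPOL δ _ hδ hδ1 hint
  -- the averages with the weight
  have havg : ∀ r : ℝ, 0 < r → Real.circleAverage (fun z => Rw z * Real.log ‖F z - b‖) 0 r =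
      (r ^ 3)⁻¹ * Real.circleAverage (fun z => ‖1 + z‖ ^ 2 * Real.log ‖F z - b‖) 0 r := by
    intro r hr
    rw [← smul_eq_mul, ← Real.circleAverage_fun_smul]
    apply Real.circleAverage_congr_sphere
    intro z hz
    rw [mem_sphere_zero_iff_norm, abs_of_pos hr] at hz
    simp only [Rw, hz, smul_eq_mul]
    ring
  rw [hpol]
  by_cases hz : ∃ a ∈ ball (0 : ℂ) 1, F a = b
  · obtain ⟨a, ha, hab⟩ := hz
    have hδa : δ < ‖a‖ := by
      by_contra h
      exact hbδ a (not_lt.1 h) hab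
    have ha1 : ‖a‖ < 1 := mem_ball_zero_iff.1 ha
    have han : 0 < ‖a‖ := hδ.trans hδa
    rw [← base_integral δ (Real.log ‖b‖) (β * (1 / b).re) hδ hδ1]
    have hcont : ∀ p q : ℝ, 0 < p → p ≤ q → IntervalIntegrable (fun r : ℝ => 2 * Real.pi * r *
        ((r ^ 3)⁻¹ * ((1 + r ^ 2) * Real.log ‖b‖ - r ^ 2 * (β * (1 / b).re)))) volume p q := by
      intro p q hp hpq
      apply ContinuousOn.intervalIntegrable
      intro r hr
      rw [uIcc_of_le hpq] at hr
      have hr0 : r ≠ 0 := (hp.trans_le hr.1).ne'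
      apply ContinuousAt.continuousWithinAt
      have : ContinuousAt (fun r : ℝ => (r ^ 3)⁻¹) r :=
        ContinuousAt.inv₀ (by fun_prop) (pow_ne_zero 3 hr0)
      fun_prop
    have hE : IntervalIntegrable (fun r : ℝ => (r ^ 2)⁻¹ * ((1 + r ^ 2) * Real.log (r / ‖a‖) - a.re +
        r ^ 2 * a.re / ‖a‖ ^ 2)) volume ‖a‖ 1 := by
      apply ContinuousOn.intervalIntegrable
      intro r hr
      rw [uIcc_of_le ha1.le] at hr
      have hr0 : r ≠ 0 := (han.trans_le hr.1).ne'
      apply ContinuousAt.continuousWithinAt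
      have h1 : ContinuousAt (fun r : ℝ => (r ^ 2)⁻¹) r :=
        ContinuousAt.inv₀ (by fun_prop) (pow_ne_zero 2 hr0)
      have h2 : ContinuousAt (fun r : ℝ => Real.log (r / ‖a‖)) r :=
        ContinuousAt.log (by fun_prop) (div_ne_zero hr0 han.ne')
      fun_prop
    have hsub1 : IntervalIntegrable (fun r => 2 * Real.pi * r *
        Real.circleAverage (fun z => Rw z * Real.log ‖F z - b‖) 0 r) volume δ ‖a‖ :=
      hii.mono_set (by
        rw [uIcc_of_le hδa.le, uIcc_of_le hδ1.le]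
        exact Icc_subset_Icc_right ha1.le)
    have hsub2 : IntervalIntegrable (fun r => 2 * Real.pi * r *
        Real.circleAverage (fun z => Rw z * Real.log ‖F z - b‖) 0 r) volume ‖a‖ 1 :=
      hii.mono_set (by
        rw [uIcc_of_le ha1.le, uIcc_of_le hδ1.le]
        exact Icc_subset_Icc_left hδa.le)
    rw [← intervalIntegral.integral_add_adjacent_intervals hsub1 hsub2,
      ← intervalIntegral.integral_add_adjacent_intervals (hcont δ ‖a‖ hδ hδa.le)
        (hcont ‖a‖ 1 han ha1.le)]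
    have e1 : ∫ r in δ..‖a‖, 2 * Real.pi * r *
        Real.circleAverage (fun z => Rw z * Real.log ‖F z - b‖) 0 r =
        ∫ r in δ..‖a‖, 2 * Real.pi * r *
          ((r ^ 3)⁻¹ * ((1 + r ^ 2) * Real.log ‖b‖ - r ^ 2 * (β * (1 / b).re))) := by
      apply intervalIntegral.integral_congr_Ioo_of_le hδa.le
      intro r hr
      have hr0 : 0 < r := hδ.trans hr.1
      simp only
      rw [havg r hr0, (avgB hLOGF hCAH hCAL hU hb ha hab hr0 (hr.2.trans ha1)).1 hr.2]
    have e2 : ∫ r in ‖a‖..1, 2 * Real.pi * r *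
        Real.circleAverage (fun z => Rw z * Real.log ‖F z - b‖) 0 r =
        ∫ r in ‖a‖..1, (2 * Real.pi * r *
          ((r ^ 3)⁻¹ * ((1 + r ^ 2) * Real.log ‖b‖ - r ^ 2 * (β * (1 / b).re))) +
          2 * Real.pi * ((r ^ 2)⁻¹ * ((1 + r ^ 2) * Real.log (r / ‖a‖) - a.re +
            r ^ 2 * a.re / ‖a‖ ^ 2))) := by
      apply intervalIntegral.integral_congr_Ioo_of_le ha1.le
      intro r hr
      have hr0 : 0 < r := han.trans hr.1
      simp only
      rw [havg r hr0, (avgB hLOGF hCAH hCAL hU hb ha hab hr0 hr.2).2 hr.1]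
      field_simp
    rw [e1, e2, intervalIntegral.integral_add (hcont ‖a‖ 1 han ha1.le) (hE.const_mul _),
      intervalIntegral.integral_const_mul]
    have h3 := hCALC ‖a‖ a.re han ha1 (Complex.abs_re_le_norm a)
    have h4 : 0 ≤ 2 * Real.pi * ∫ r in ‖a‖..1, (r ^ 2)⁻¹ * ((1 + r ^ 2) * Real.log (r / ‖a‖) - a.re +
        r ^ 2 * a.re / ‖a‖ ^ 2) := mul_nonneg (by positivity) h3
    linarith
  · push Not at hz
    rw [← base_integral δ (Real.log ‖b‖) (β * (1 / b).re) hδ hδ1]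
    apply le_of_eq
    symm
    apply intervalIntegral.integral_congr_Ioo_of_le hδ1.le
    intro r hr
    have hr0 : 0 < r := hδ.trans hr.1
    simp only
    rw [havg r hr0, avgA hLOGF hCAH hU hz hr0 hr.2]

end Pool.Agent.Run7.h781.AC
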